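import Mathlib

/-!
# tau_M is the strongest triangle function universal for all simple spaces
-/

open scoped ENNReal Topology

namespace Pool.Agent.Results.MP_6d1e65_an.Strongest

/-- A distance distribution function: a nondecreasing function on `[0,∞]`, left-continuous on
`(0,∞)`, with value `0` at `0` and `1` at `∞`. -/
structure DDF where
  toFun : ℝ≥0∞ → ℝ
  mono' : Monotone toFun
  left_cts' : ∀ x : ℝ≥0∞, 0 < x → x < ⊤ → ContinuousWithinAt toFun (Set.Iio x) x
  zero' : toFun 0 = 0
  top' : toFun ⊤ = 1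

instance : CoeFun DDF (fun _ => ℝ≥0∞ → ℝ) := ⟨DDF.toFun⟩

/-- The pointwise order. -/
instance : LE DDF := ⟨fun F G => ∀ x, F x ≤ G x⟩

theorem DDF.nonneg (F : DDF) (x : ℝ≥0∞) : 0 ≤ F x := by
  rw [← F.zero']; exact F.mono' bot_le

theorem DDF.le_one (F : DDF) (x : ℝ≥0∞) : F x ≤ 1 := by
  rw [← F.top']; exact F.mono' le_top

/-- `ε_0`: value `0` at `0` and `1` on `(0,∞]`. -/
noncomputable def eps0 : DDF where
  toFun x := if x = 0 then 0 else 1
  mono' := by
    intro x y hxy
    by_cases hx : x = 0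
    · simp only [hx, if_true]; split_ifs <;> norm_num
    · have hy : y ≠ 0 := fun h => hx (le_antisymm (h ▸ hxy) bot_le)
      simp [hx, hy]
  left_cts' := by
    intro x hx _
    have h1 : (fun y : ℝ≥0∞ => if y = 0 then (0:ℝ) else 1) =ᶠ[𝓝 x] (fun _ => (1:ℝ)) := by
      filter_upwards [lt_mem_nhds hx] with y hy
      simp [hy.ne']
    have h2 : ContinuousAt (fun y : ℝ≥0∞ => if y = 0 then (0:ℝ) else 1) x :=
      continuousAt_const.congr h1.symm
    exact h2.continuousWithinAt
  zero' := by simp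
  top' := by simp

/-- `ε_∞`: value `0` on `[0,∞)` and `1` at `∞`. -/
noncomputable def epsTop : DDF where
  toFun x := if x = ⊤ then 1 else 0
  mono' := by
    intro x y hxy
    by_cases hx : x = ⊤
    · have hy : y = ⊤ := top_le_iff.mp (hx ▸ hxy)
      simp [hx, hy]
    · simp only [hx, if_false]; split_ifs <;> norm_num
  left_cts' := by
    intro x _ hx
    have h1 : (fun y : ℝ≥0∞ => if y = ⊤ then (1:ℝ) else 0) =ᶠ[𝓝 x] (fun _ => (0:ℝ)) := by
      filter_upwards [gt_mem_nhds hx] with y hy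
      simp [hy.ne]
    have h2 : ContinuousAt (fun y : ℝ≥0∞ => if y = ⊤ then (1:ℝ) else 0) x :=
      continuousAt_const.congr h1.symm
    exact h2.continuousWithinAt
  zero' := by simp
  top' := by simp

/-- A triangle function: a commutative, associative operation on the distance distribution
functions, nondecreasing in each argument, with identity `ε_0`. -/
structure IsTriangleFunction (τ : DDF → DDF → DDF) : Prop where
  comm : ∀ F G, τ F G = τ G F
  assoc : ∀ F G H, τ (τ F G) H = τ F (τ G H)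
  mono : ∀ F F' G G', F ≤ F' → G ≤ G' → τ F G ≤ τ F' G'
  identity : ∀ F, τ F eps0 = F

/-- `τ_M(F,G)(x) = sup {min(F u, G v) : u + v = x}`. -/
noncomputable def tauM (F G : DDF) (x : ℝ≥0∞) : ℝ :=
  sSup {r : ℝ | ∃ u v : ℝ≥0∞, u + v = x ∧ r = min (F u) (G v)}

/-- PSM spaces. -/
structure IsPSM {S : Type} (D : S → S → DDF) : Prop where
  self : ∀ p, D p p = eps0
  ne : ∀ p q, p ≠ q → D p q ≠ eps0
  symm : ∀ p q, D p q = D q p

/-- PM spaces under `τ`. -/
structure IsPM {S : Type} (τ : DDF → DDF → DDF) (D : S → S → DDF) : Prop where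
  psm : IsPSM D
  triangle : ∀ p q r, τ (D p q) (D q r) ≤ D p r

/-- The function `x ↦ G (x / d)` with `G (x / 0) = 1` for `x > 0`, `G (0 / 0) = 0` (these are
the conventions of division in `[0,∞]`), and value `1` at `x = ∞`. -/
noncomputable def scale (G : DDF) (d : ℝ≥0∞) : DDF where
  toFun x := if x = ⊤ then 1 else G (x / d)
  mono' := by
    intro x y hxy
    by_cases hy : y = ⊤
    · simp only [hy, if_true]
      split_ifs
      · exact le_refl _
      · exact G.le_one _
    · have hx : x ≠ ⊤ := fun h => hy (top_le_iff.mp (h ▸ hxy))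
      simp only [hx, hy, if_false]
      exact G.mono' (ENNReal.div_le_div_right hxy d)
  left_cts' := by
    intro x hx0 hxt
    have key : ContinuousWithinAt (fun y : ℝ≥0∞ => G (y / d)) (Set.Iio x) x := by
      rcases eq_or_ne d 0 with hd | hd
      · subst hd
        have h1 : (fun y : ℝ≥0∞ => G (y / 0)) =ᶠ[𝓝 x] (fun _ => (1:ℝ)) := by
          filter_upwards [lt_mem_nhds hx0] with y hy
          rw [ENNReal.div_zero hy.ne', G.top']
        exact (continuousAt_const.congr h1.symm).continuousWithinAt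
      rcases eq_or_ne d ⊤ with hd' | hd'
      · subst hd'
        have h1 : (fun y : ℝ≥0∞ => G (y / ⊤)) = (fun _ => (0:ℝ)) := by
          funext y
          rw [ENNReal.div_top, G.zero']
        rw [h1]
        exact continuousWithinAt_const
      · have hxd0 : 0 < x / d := ENNReal.div_pos hx0.ne' hd'
        have hxdt : x / d < ⊤ := ENNReal.div_lt_top hxt.ne hd
        have h2 := G.left_cts' (x / d) hxd0 hxdt
        have h3 : ContinuousWithinAt (fun y : ℝ≥0∞ => y / d) (Set.Iio x) x := by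
          have : Continuous (fun y : ℝ≥0∞ => y / d) := by
            simpa [div_eq_mul_inv] using
              ENNReal.continuous_mul_const (a := d⁻¹) (by simp [hd])
          exact this.continuousWithinAt
        refine ContinuousWithinAt.comp (t := Set.Iio (x / d)) h2 h3 ?_
        intro y hy
        exact ENNReal.div_lt_div_right hd hd' hy
    have h1 : (fun y : ℝ≥0∞ => if y = ⊤ then (1:ℝ) else G (y / d)) =ᶠ[𝓝 x]
        (fun y => G (y / d)) := by
      filter_upwards [gt_mem_nhds hxt] with y hy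
      simp [hy.ne]
    exact key.congr_of_eventuallyEq (h1.filter_mono nhdsWithin_le_nhds) (by simp [hxt.ne])
  zero' := by simp [G.zero']
  top' := by simp

/-- The simple space `(S, d, G)`; the metric may take the value `∞`. -/
noncomputable def simple (S : Type) [EMetricSpace S] (G : DDF) : S → S → DDF :=
  fun p q => scale G (edist p q)

/-- `τ` is universal for the class of all simple spaces. -/
def UniversalForSimple (τ : DDF → DDF → DDF) : Prop :=
  ∀ (S : Type) [EMetricSpace S] (G : DDF), G ≠ eps0 → G ≠ epsTop → IsPM τ (simple S G)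

theorem le_eps0 (F : DDF) : F ≤ eps0 := by
  intro x
  by_cases hx : x = 0
  · subst hx; rw [F.zero', eps0.zero']
  · have : eps0 x = 1 := by simp [eps0, hx]
    rw [this]; exact F.le_one x

/-- The maximum of two rescaled functions. -/
noncomputable def maxScale (F H : DDF) (a b : ℝ≥0∞) (ha : a ≠ 0) (ha' : a ≠ ⊤) (hb : b ≠ 0)
    (hb' : b ≠ ⊤) : DDF where
  toFun z := max (F (a * z)) (H (b * z))
  mono' := by
    intro x y hxy
    exact max_le_max (F.mono' (mul_le_mul_right hxy a)) (H.mono' (mul_le_mul_right hxy b))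
  left_cts' := by
    intro x hx0 hxt
    have aux : ∀ (K : DDF) (c : ℝ≥0∞), c ≠ 0 → c ≠ ⊤ →
        ContinuousWithinAt (fun z => K (c * z)) (Set.Iio x) x := by
      intro K c hc hc'
      have h1 : 0 < c * x := ENNReal.mul_pos hc hx0.ne'
      have h2 : c * x < ⊤ := ENNReal.mul_lt_top hc'.lt_top hxt
      refine ContinuousWithinAt.comp (t := Set.Iio (c * x)) (K.left_cts' _ h1 h2) ?_ ?_
      · exact (ENNReal.continuous_const_mul hc').continuousWithinAt
      · intro y hy
        exact (ENNReal.mul_lt_mul_iff_right hc hc').mpr hy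
    exact (aux F a ha ha').max (aux H b hb hb')
  zero' := by simp [F.zero', H.zero']
  top' := by simp [ENNReal.mul_top ha, ENNReal.mul_top hb, F.top', H.top']

theorem le_of_ident {τ : DDF → DDF → DDF} (hτ : IsTriangleFunction τ) (F H : DDF) :
    τ F H ≤ F := by
  have := hτ.mono F F H eps0 (fun x => le_refl _) (le_eps0 H)
  rw [hτ.identity] at this
  exact this

/-- The key estimate. -/
theorem key {τ : DDF → DDF → DDF} (hτ : IsTriangleFunction τ) (hu : UniversalForSimple τ)
    (F H : DDF) (x : ℝ≥0∞) (hx0 : 0 < x) (hxt : x < ⊤) (s : ℝ) (hs0 : 0 < s) (hs1 : s < 1) :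
    τ F H x ≤ max (F (ENNReal.ofReal s * x)) (H (ENNReal.ofReal (1 - s) * x)) := by
  have ha : ENNReal.ofReal s ≠ 0 := by simpa using hs0
  have hb : ENNReal.ofReal (1 - s) ≠ 0 := by simpa using hs1
  set G := maxScale F H (ENNReal.ofReal s) (ENNReal.ofReal (1 - s)) ha ENNReal.ofReal_ne_top hb
    ENNReal.ofReal_ne_top with hG
  have hGx : ∀ z, G z = max (F (ENNReal.ofReal s * z)) (H (ENNReal.ofReal (1 - s) * z)) :=
    fun z => rfl
  rw [← hGx]
  by_cases h0 : G = eps0
  · rw [h0]
    have : eps0 x = 1 := by simp [eps0, hx0.ne']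
    rw [this]; exact DDF.le_one _ _
  by_cases h1 : G = epsTop
  · have hz : G (x / ENNReal.ofReal s) = 0 := by
      rw [h1]
      have : x / ENNReal.ofReal s ≠ ⊤ := (ENNReal.div_lt_top hxt.ne ha).ne
      simp [epsTop, this]
    have h2 : F x ≤ 0 := by
      rw [hGx, ENNReal.mul_div_cancel ha ENNReal.ofReal_ne_top] at hz
      rw [← hz]; exact le_max_left _ _
    exact (le_of_ident hτ F H x).trans (h2.trans (G.nonneg x))
  have h := (hu ℝ G h0 h1).triangle (0:ℝ) s 1
  have e1 : edist (0:ℝ) s = ENNReal.ofReal s := by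
    rw [edist_dist, Real.dist_eq, zero_sub, abs_neg, abs_of_pos hs0]
  have e2 : edist s (1:ℝ) = ENNReal.ofReal (1 - s) := by
    rw [edist_dist, Real.dist_eq, abs_sub_comm, abs_of_pos (by linarith)]
  have e3 : edist (0:ℝ) 1 = 1 := by
    rw [edist_dist, Real.dist_eq]; simp
  simp only [simple, e1, e2, e3] at h
  have hF : F ≤ scale G (ENNReal.ofReal s) := by
    intro y
    by_cases hy : y = ⊤
    · subst hy; rw [F.top', DDF.top']
    · have : scale G (ENNReal.ofReal s) y = G (y / ENNReal.ofReal s) := by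
        simp [scale, hy]
      rw [this, hGx, ENNReal.mul_div_cancel ha ENNReal.ofReal_ne_top]
      exact le_max_left _ _
  have hH : H ≤ scale G (ENNReal.ofReal (1 - s)) := by
    intro y
    by_cases hy : y = ⊤
    · subst hy; rw [H.top', DDF.top']
    · have : scale G (ENNReal.ofReal (1 - s)) y = G (y / ENNReal.ofReal (1 - s)) := by
        simp [scale, hy]
      rw [this, hGx, ENNReal.mul_div_cancel hb ENNReal.ofReal_ne_top]
      exact le_max_right _ _
  have h3 := hτ.mono _ _ _ _ hF hH x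
  have h4 := h x
  have h5 : scale G 1 x = G x := by
    simp [scale, hxt.ne]
  rw [h5] at h4
  exact h3.trans h4

theorem bddAbove_tauM (F G : DDF) (x : ℝ≥0∞) :
    BddAbove {r : ℝ | ∃ u v : ℝ≥0∞, u + v = x ∧ r = min (F u) (G v)} := by
  refine ⟨1, ?_⟩
  rintro r ⟨u, v, _, rfl⟩
  exact (min_le_left _ _).trans (F.le_one u)

theorem le_tauM (F G : DDF) (u v : ℝ≥0∞) : min (F u) (G v) ≤ tauM F G (u + v) :=
  le_csSup (bddAbove_tauM F G _) ⟨u, v, rfl, rfl⟩

/-- Left-continuity: if `F (s x) ≤ m` for all `s < s₀`, `s ≥ 0`, then `F (s₀ x) ≤ m`. -/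
theorem left_limit (F : DDF) (x : ℝ≥0∞) (hx0 : 0 < x) (hxt : x < ⊤) (m : ℝ) (s₀ : ℝ)
    (hs : 0 < s₀) (h : ∀ s : ℝ, 0 ≤ s → s < s₀ → F (ENNReal.ofReal s * x) ≤ m) :
    F (ENNReal.ofReal s₀ * x) ≤ m := by
  have hc0 : ENNReal.ofReal s₀ ≠ 0 := by simpa using hs
  have h1 : 0 < ENNReal.ofReal s₀ * x := ENNReal.mul_pos hc0 hx0.ne'
  have h2 : ENNReal.ofReal s₀ * x < ⊤ := ENNReal.mul_lt_top ENNReal.ofReal_lt_top hxt
  have hc := F.left_cts' _ h1 h2
  have hne : (𝓝[<] (ENNReal.ofReal s₀ * x)).NeBot := nhdsLT_neBot_of_exists_lt ⟨0, h1⟩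
  refine le_of_tendsto hc ?_
  filter_upwards [self_mem_nhdsWithin] with y hy
  have hy' : y < ENNReal.ofReal s₀ * x := hy
  have h3 : y / x < ENNReal.ofReal s₀ := by
    rw [ENNReal.div_lt_iff (Or.inl hx0.ne') (Or.inl hxt.ne)]; exact hy'
  have h4 : y / x ≠ ⊤ := (h3.trans ENNReal.ofReal_lt_top).ne
  have h5 := h (y / x).toReal ENNReal.toReal_nonneg
    ((ENNReal.lt_ofReal_iff_toReal_lt h4).mp h3)
  rw [ENNReal.ofReal_toReal h4, ENNReal.div_mul_cancel hx0.ne' hxt.ne] at h5
  exact h5

/-- Every triangle function that is universal for the class of all simple spaces is pointwise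
at most `τ_M`. -/
theorem result (τ : DDF → DDF → DDF) (hτ : IsTriangleFunction τ) (hu : UniversalForSimple τ) :
    ∀ (F G : DDF) (x : ℝ≥0∞), τ F G x ≤ tauM F G x := by
  intro F H x
  rcases eq_or_ne x 0 with hx0 | hx0
  · subst hx0
    have := le_tauM F H 0 0
    rw [F.zero', H.zero', min_self, add_zero] at this
    rw [(τ F H).zero']; exact this
  rcases eq_or_ne x ⊤ with hxt | hxt
  · subst hxt
    have := le_tauM F H ⊤ ⊤
    rw [F.top', H.top', min_self, top_add] at this
    rw [(τ F H).top']; exact this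
  have hx0 : 0 < x := pos_iff_ne_zero.mpr hx0
  have hxt : x < ⊤ := lt_top_iff_ne_top.mpr hxt
  -- the set of `s` with `F(sx) ≤ H((1-s)x)`
  set A : Set ℝ := {s | 0 ≤ s ∧ s ≤ 1 ∧ F (ENNReal.ofReal s * x) ≤ H (ENNReal.ofReal (1 - s) * x)}
    with hA
  have hA0 : (0:ℝ) ∈ A := by
    refine ⟨le_refl _, zero_le_one, ?_⟩
    simp only [ENNReal.ofReal_zero, zero_mul, F.zero']
    exact H.nonneg _
  have hAb : BddAbove A := ⟨1, fun s hs => hs.2.1⟩
  set t := sSup A with ht
  have ht0 : 0 ≤ t := le_csSup hAb hA0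
  have ht1 : t ≤ 1 := csSup_le ⟨0, hA0⟩ (fun s hs => hs.2.1)
  have hsum : ∀ s : ℝ, 0 ≤ s → s ≤ 1 → ENNReal.ofReal s * x + ENNReal.ofReal (1 - s) * x = x := by
    intro s h0 h1
    rw [← add_mul, ← ENNReal.ofReal_add h0 (by linarith)]
    simp
  have hm : ∀ s : ℝ, 0 ≤ s → s ≤ 1 →
      min (F (ENNReal.ofReal s * x)) (H (ENNReal.ofReal (1 - s) * x)) ≤ tauM F H x := by
    intro s h0 h1
    have := le_tauM F H (ENNReal.ofReal s * x) (ENNReal.ofReal (1 - s) * x)
    rwa [hsum s h0 h1] at this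
  have hm0 : 0 ≤ tauM F H x := by
    refine le_trans ?_ (hm 0 le_rfl zero_le_one)
    exact le_min (F.nonneg _) (H.nonneg _)
  have hlow : ∀ s : ℝ, 0 ≤ s → s < t → F (ENNReal.ofReal s * x) ≤ tauM F H x := by
    intro s h0 hst
    obtain ⟨r, hr, hsr⟩ := exists_lt_of_lt_csSup ⟨0, hA0⟩ hst
    have h1 : F (ENNReal.ofReal s * x) ≤ F (ENNReal.ofReal r * x) :=
      F.mono' (mul_le_mul_left (ENNReal.ofReal_le_ofReal hsr.le) x)
    have h2 := hm r hr.1 hr.2.1
    rw [min_eq_left hr.2.2] at h2
    exact h1.trans h2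
  have hhigh : ∀ s : ℝ, 0 ≤ s → s < 1 - t → H (ENNReal.ofReal s * x) ≤ tauM F H x := by
    intro s h0 hst
    have h3 : (1 - s) ∉ A := by
      intro hmem
      have := le_csSup hAb hmem
      rw [← ht] at this
      linarith
    have h4 : H (ENNReal.ofReal s * x) ≤ F (ENNReal.ofReal (1 - s) * x) := by
      by_contra hcon
      push Not at hcon
      apply h3
      refine ⟨by linarith, by linarith, ?_⟩
      rw [sub_sub_cancel]
      exact hcon.le
    have h2 := hm (1 - s) (by linarith) (by linarith)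
    rw [sub_sub_cancel, min_eq_right h4] at h2
    exact h2
  have hFt : F (ENNReal.ofReal t * x) ≤ tauM F H x := by
    rcases ht0.eq_or_lt with h | h
    · rw [← h]; simpa [F.zero'] using hm0
    · exact left_limit F x hx0 hxt _ t h hlow
  have hHt : H (ENNReal.ofReal (1 - t) * x) ≤ tauM F H x := by
    rcases ht1.eq_or_lt with h | h
    · rw [h]; simpa [H.zero'] using hm0
    · exact left_limit H x hx0 hxt _ (1 - t) (by linarith) hhigh
  rcases ht0.eq_or_lt with h0 | h0
  · rw [← h0] at hHt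
    have h5 : τ F H x ≤ H x := by
      rw [hτ.comm]; exact le_of_ident hτ H F x
    simp only [sub_zero, ENNReal.ofReal_one, one_mul] at hHt
    exact h5.trans hHt
  rcases ht1.eq_or_lt with h1 | h1
  · rw [h1] at hFt
    simp only [ENNReal.ofReal_one, one_mul] at hFt
    exact (le_of_ident hτ F H x).trans hFt
  · exact (key hτ hu F H x hx0 hxt t h0 h1).trans (max_le hFt hHt)

end Pool.Agent.Results.MP_6d1e65_an.Strongest
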